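import Pool.Agent.L7h83.GK.Stm

set_option autoImplicit false

namespace Pool.Agent.L7h61.GK

open Finset
open Pool.Agent.H126R2.CDC (T3 IsFl excess MGraph lab cob functional_eq mem_cob_of_orth isFl_iff)
open Pool.Agent.Helper879.ECD (F2 IsFlow)
open Pool.Agent.L7h83.GK

theorem s_LINK : S_LINK := by
  intro W E _ _ _ _ v a hcon e f he hf
  classical
  set X : Finset W := univ.filter (fun w => ∃ g, Relation.ReflTransGen (Stp v a) e g ∧
    ∃ s : Bool, v (g, s) = w) with hX
  have hmem : ∀ w, w ∈ X ↔ ∃ g, Relation.ReflTransGen (Stp v a) e g ∧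
      ∃ s : Bool, v (g, s) = w := by
    intro w; simp [hX]
  have hne : X.Nonempty := ⟨v (e, false), (hmem _).2 ⟨e, Relation.ReflTransGen.refl, false, rfl⟩⟩
  have hreach : ∀ g', a g' = 0 → ∀ t, v (g', t) ∈ X →
      Relation.ReflTransGen (Stp v a) e g' := by
    intro g' hg' t ht
    obtain ⟨g, hg, s, hs⟩ := (hmem _).1 ht
    exact hg.tail ⟨hg', s, t, hs⟩
  have hstep : ∀ g', a g' = 0 → ∀ t u, v (g', t) ∈ X → v (g', u) ∈ X := by
    intro g' hg' t u ht
    exact (hmem _).2 ⟨g', hreach g' hg' t ht, u, rfl⟩
  by_cases huniv : X = univ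
  · exact hreach f hf false (by rw [huniv]; exact mem_univ _)
  · obtain ⟨g', hg', hx⟩ := hcon X hne huniv
    exact absurd ⟨hstep g' hg' false true, hstep g' hg' true false⟩ hx

theorem s_JOIN : S_JOIN := by
  intro W E _ _ _ _ v a hcon d
  classical
  let S : Submodule F2 (E → F2) :=
    { carrier := {x | ∃ g : E → F2, IsFlow (fun e => v (e, false)) (fun e => v (e, true)) g ∧
        ∀ e, a e ≠ 0 → g e = x e}
      zero_mem' := ⟨fun _ => 0, fun c => by simp, fun e _ => rfl⟩
      add_mem' := by
        rintro x y ⟨B, hB, hBx⟩ ⟨B', hB', hBy⟩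
        refine ⟨fun e => B e + B' e, fun c => ?_, fun e he => ?_⟩
        · have h1 := hB c
          have h2 := hB' c
          simp only [add_mul, Finset.sum_add_distrib] at *
          rw [h1, h2, add_zero]
        · simp only [Pi.add_apply]
          rw [← hBx e he, ← hBy e he]
      smul_mem' := by
        rintro r x ⟨B, hB, hBx⟩
        refine ⟨fun e => r * B e, fun c => ?_, fun e he => ?_⟩
        · have h1 := hB c
          simp only [mul_assoc, ← Finset.mul_sum] at *
          rw [h1, mul_zero]
        · simp only [Pi.smul_apply, smul_eq_mul]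
          rw [← hBx e he] }
  suffices h : d ∈ S by
    obtain ⟨g, hg, hgd⟩ := h
    exact ⟨g, (isFl_iff v g).2 hg, hgd⟩
  by_contra hnot
  obtain ⟨f, hf1, hf2⟩ := Submodule.exists_dual_map_eq_bot_of_notMem hnot inferInstance
  have hf : ∀ x ∈ S, f x = 0 := by
    intro x hx
    have : f x ∈ S.map f := Submodule.mem_map_of_mem hx
    rw [hf2] at this
    exact (Submodule.mem_bot F2).1 this
  have hout : ∀ e, a e = 0 → f (Pi.single e 1) = 0 := by
    intro e he
    apply hf
    refine ⟨fun _ => 0, fun c => by simp, fun e' he' => ?_⟩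
    have : e' ≠ e := by rintro rfl; exact he' he
    rw [Pi.single_eq_of_ne this]
  obtain ⟨c, hc⟩ := mem_cob_of_orth (fun e => v (e, false)) (fun e => v (e, true))
    (fun e => f (Pi.single e 1)) (by
      intro B hB
      have h1 := hf B ⟨B, hB, fun _ _ => rfl⟩
      rw [functional_eq] at h1
      rw [← h1]
      apply Finset.sum_congr rfl
      intro e _
      ring)
  set X : Finset W := univ.filter (fun w => c w ≠ 0) with hX
  have hmem : ∀ w, w ∈ X ↔ c w ≠ 0 := by intro w; simp [hX]
  have h2 : ∀ x y : F2, x + y = 0 → (x ≠ 0 ↔ y ≠ 0) := by decide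
  have h3 : ∀ x y : F2, x ≠ 0 → y ≠ 0 → x + y = 0 := by decide
  have hall : ∀ e, f (Pi.single e 1) = 0 := by
    intro e
    by_cases hXe : X.Nonempty
    · by_cases hXu : X = univ
      · have := hc e
        rw [this]
        apply h3
        · rw [← hmem, hXu]; exact mem_univ _
        · rw [← hmem, hXu]; exact mem_univ _
      · obtain ⟨g', hg', hx⟩ := hcon X hXe hXu
        exfalso
        apply hx
        rw [hmem, hmem]
        apply h2
        have := hc g'
        rw [← this]
        exact hout g' hg'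
    · have := hc e
      rw [this]
      have hz : ∀ w, c w = 0 := by
        intro w
        by_contra hw
        exact hXe ⟨w, (hmem w).2 hw⟩
      rw [hz, hz, add_zero]
  apply hf1
  rw [functional_eq]
  apply Finset.sum_eq_zero
  intro e _
  rw [hall e, zero_mul]

end Pool.Agent.L7h61.GK

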